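import Mathlib

set_option autoImplicit false

namespace Pool.Agent.Results.MP_a09a4b_an.MixedBeats

open Set
open scoped ENNReal

/-- The answers received (`true` means too high) before guess number `n`, for the pure strategy
`τ` (the guess as a function of the answers so far) and the secret `h`. -/
noncomputable def hist (τ : List Bool → ℝ) (h : ℝ) : ℕ → List Bool
  | 0 => []
  | n + 1 => hist τ h n ++ [decide (h < τ (hist τ h n))]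

open Classical in
/-- the payoff `P(h)`: the sum of the errors of the guesses made; play stops at a correct guess -/
noncomputable def cost (τ : List Bool → ℝ) (h : ℝ) : ℝ≥0∞ :=
  ∑' n, if ∃ i < n, τ (hist τ h i) = h then 0 else ENNReal.ofReal |τ (hist τ h n) - h|

/-- the strategy guessing `l k * a + (1 - l k) * b` in state `k` on the interval `[a, b]` -/
noncomputable def alp (l : ℤ → ℝ) : ℝ → ℝ → ℤ → List Bool → ℝ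
  | a, b, k, [] => l k * a + (1 - l k) * b
  | a, b, k, true :: s => alp l a (l k * a + (1 - l k) * b) (k - 1) s
  | a, b, k, false :: s => alp l (l k * a + (1 - l k) * b) b (k + 1) s

def sub (τ : List Bool → ℝ) (b : Bool) : List Bool → ℝ := fun s => τ (b :: s)

theorem hist_succ (τ : List Bool → ℝ) (h : ℝ) (n : ℕ) :
    hist τ h (n + 1) = decide (h < τ []) :: hist (sub τ (decide (h < τ []))) h n := by
  induction n with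
  | zero => rfl
  | succ n ih => rw [hist, ih]; rfl

noncomputable def F : ℕ → (List Bool → ℝ) → ℝ → ℝ
  | 0, _, _ => 0
  | n + 1, τ, h => |τ [] - h| + F n (sub τ (decide (h < τ []))) h

theorem F_eq (n : ℕ) (τ : List Bool → ℝ) (h : ℝ) :
    ∑ i ∈ Finset.range n, |τ (hist τ h i) - h| = F n τ h := by
  induction n generalizing τ with
  | zero => rfl
  | succ n ih =>
    rw [Finset.sum_range_succ', F, ← ih, add_comm]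
    simp only [hist_succ]
    rfl

theorem cost_le (τ : List Bool → ℝ) (h x : ℝ) (H : ∀ n, F n τ h ≤ x) :
    cost τ h ≤ ENNReal.ofReal x := by
  refine ENNReal.tsum_le_of_sum_range_le fun n => ?_
  refine le_trans (Finset.sum_le_sum fun i _ => ?_) ((ENNReal.ofReal_sum_of_nonneg
    fun i _ => abs_nonneg (τ (hist τ h i) - h)).symm.trans_le
    (ENNReal.ofReal_le_ofReal ((F_eq n τ h).trans_le (H n))))
  split_ifs <;> simp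

theorem le_cost (τ : List Bool → ℝ) (h : ℝ) (H : h ∉ range τ) (n : ℕ) :
    ENNReal.ofReal (F n τ h) ≤ cost τ h := by
  rw [← F_eq, ENNReal.ofReal_sum_of_nonneg fun i _ => abs_nonneg _]
  refine le_trans (Finset.sum_le_sum fun i _ => ?_) (ENNReal.sum_le_tsum (Finset.range n))
  rw [if_neg fun ⟨j, _, e⟩ => H ⟨_, e⟩]

def w : ℕ → ℤ → ℚ
  | 0, k => max k 0
  | n + 1, k => w n (k + 1) / (1 + w n (k - 1) - k + w n (k + 1)) * (1 + w n (k - 1))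

theorem gam (k a b : ℝ) (h0 : 1 ≤ a) (h1 : k ≤ a) (h2 : 0 ≤ b) (h3 : k + 1 ≤ b) :
    0 ≤ b / (a - k + b) ∧ b / (a - k + b) ≤ 1 ∧
      b / (a - k + b) * a = k * (b / (a - k + b)) + (1 - b / (a - k + b)) * b := by
  have h : 0 < a - k + b := by rcases le_total k 0 with h | h <;> linarith
  refine ⟨by positivity, by rw [div_le_one h]; linarith, by field_simp; ring⟩

theorem w_ge (n : ℕ) : ∀ k : ℤ, (0 : ℝ) ≤ w n k ∧ (k : ℝ) ≤ w n k := by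
  induction n with
  | zero => intro k; simp [w]
  | succ n ih =>
    intro k
    have h1 := ih (k - 1)
    have h2 := ih (k + 1)
    push_cast at h1 h2
    obtain ⟨g0, g1, g2⟩ := gam k (1 + w n (k - 1)) (w n (k + 1)) (by linarith [h1.1])
      (by linarith [h1.2]) h2.1 h2.2
    simp only [w]
    push_cast
    exact ⟨mul_nonneg g0 (by linarith [h1.1]), by rw [g2]; nlinarith [h2.2]⟩

theorem lower (S : Set ℝ) (hS : S.Countable) (n : ℕ) : ∀ (k : ℤ) (τ : List Bool → ℝ) (a b L : ℝ),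
    a < b → L < (b - a) * w n k → ∃ h ∈ Ioo a b, h ∉ S ∧ L < k * (h - a) + F n τ h := by
  induction n with
  | zero =>
    intro k τ a b L hab hL
    have ho : IsOpen {h : ℝ | L < k * (h - a)} := isOpen_lt continuous_const (by fun_prop)
    have hne : ({h : ℝ | L < k * (h - a)} ∩ Ioo a b).Nonempty := by
      simp only [w] at hL
      push_cast at hL
      rcases le_total (k : ℝ) 0 with h | h
      · rw [max_eq_right h] at hL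
        exact mem_closure_iff.mp (show a ∈ closure (Ioo a b) by
          rw [closure_Ioo hab.ne]; exact left_mem_Icc.mpr hab.le) _ ho (by simpa using hL)
      · rw [max_eq_left h] at hL
        exact mem_closure_iff.mp (show b ∈ closure (Ioo a b) by
          rw [closure_Ioo hab.ne]; exact right_mem_Icc.mpr hab.le) _ ho (by
            simp only [mem_setOf_eq]; linarith)
    obtain ⟨h, h1, h2, h3⟩ := (hS.dense_compl ℝ).exists_mem_open (ho.inter isOpen_Ioo) hne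
    exact ⟨h, h3, h1, by simpa [F] using h2⟩
  | succ n ih =>
    intro k τ a b L hab hL
    have h1 := w_ge n (k - 1)
    have h2 := w_ge n (k + 1)
    push_cast at h1 h2
    obtain ⟨g0, g1, g2⟩ := gam k (1 + w n (k - 1)) (w n (k + 1)) (by linarith [h1.1])
      (by linarith [h1.2]) h2.1 h2.2
    simp only [w] at hL
    push_cast at hL
    generalize (w n (k + 1) : ℝ) / (1 + w n (k - 1) - k + w n (k + 1)) = γ at *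
    have hd : 0 < b - a := by linarith
    by_cases c : a + γ * (b - a) ≤ τ [] ∧ a < τ []
    · have m1 : a + γ * (b - a) ≤ min (τ []) b := le_min c.1 (by nlinarith)
      obtain ⟨h, ⟨k1, k2⟩, k3, k4⟩ := ih (k - 1) (sub τ true) a (min (τ []) b)
        (L - (min (τ []) b - a)) (lt_min c.2 hab) (by nlinarith [h1.1])
      have k5 := lt_min_iff.mp k2
      refine ⟨h, ⟨k1, k5.2⟩, k3, ?_⟩
      rw [F, decide_eq_true k5.1, abs_of_pos (by linarith [k5.1])]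
      push_cast at k4
      linarith [min_le_left (τ []) b]
    · have m1 : max (τ []) a ≤ a + γ * (b - a) ∧ max (τ []) a < b := by
        rw [not_and_or, not_le, not_lt] at c
        rcases c with c | c
        · exact ⟨max_le c.le (by nlinarith), max_lt (by nlinarith) hab⟩
        · rw [max_eq_right c]; exact ⟨by nlinarith, hab⟩
      obtain ⟨h, ⟨k1, k2⟩, k3, k4⟩ := ih (k + 1) (sub τ false) (max (τ []) a) b
        (L - k * (max (τ []) a - a)) m1.2 (by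
          rw [g2] at hL
          nlinarith [mul_nonneg (sub_nonneg.mpr m1.1) (show 0 ≤ w n (k + 1) - (k : ℝ) by
            linarith [h2.2])])
      have k5 := max_lt_iff.mp k1
      refine ⟨h, ⟨k5.2, k2⟩, k3, ?_⟩
      rw [F, decide_eq_false (not_lt.mpr k5.1.le), abs_of_neg (by linarith [k5.1])]
      push_cast at k4
      linarith [le_max_left (τ []) a]

def wI (k : ℤ) : ℤ := if k ≤ -5 then 30 else if 5 ≤ k then 10000 * k + 30 else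
  [59, 212, 797, 2511, 6266, 12511, 20797, 30212, 40059].getD (k + 4).toNat 0

def gI (k : ℤ) : ℤ := if k ≤ -5 then 18 else if 5 ≤ k then 9983 else
  [49, 200, 771, 2317, 5000, 7683, 9229, 9800, 9952].getD (k + 4).toNat 0

theorem tab (k : ℤ) : 0 ≤ gI k ∧ gI k ≤ 10000 ∧ 0 ≤ wI k ∧ 10000 * k ≤ wI k ∧
    gI k * (10000 + wI (k - 1)) ≤ 10000 * wI k ∧
    k * gI k * 10000 + (10000 - gI k) * wI (k + 1) ≤ 10000 * wI k := by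
  by_cases h1 : k ≤ -6
  · simp only [wI, gI, if_pos (show k ≤ -5 by omega), if_pos (show k - 1 ≤ -5 by omega),
      if_pos (show k + 1 ≤ -5 by omega)]
    omega
  by_cases h2 : 6 ≤ k
  · simp only [wI, gI, if_neg (show ¬ k ≤ -5 by omega), if_neg (show ¬ k - 1 ≤ -5 by omega),
      if_neg (show ¬ k + 1 ≤ -5 by omega), if_pos (show 5 ≤ k by omega),
      if_pos (show 5 ≤ k - 1 by omega), if_pos (show 5 ≤ k + 1 by omega)]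
    omega
  obtain ⟨h1, h2⟩ : -6 < k ∧ k < 6 := by omega
  interval_cases k <;> decide

noncomputable def lam (k : ℤ) : ℝ := 1 - gI k / 10000

theorem tail (n : ℕ) : ∀ (a b : ℝ) (k : ℤ) (h : ℝ), a ≤ h → h ≤ b →
    F n (alp lam a b k) h + k * (h - a) ≤ (b - a) * (wI k / 10000) := by
  induction n with
  | zero =>
    intro a b k h h1 h2
    obtain ⟨-, -, t3, t4, -⟩ := tab k
    have t3' : (0 : ℝ) ≤ wI k := by exact_mod_cast t3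
    have t4' : (10000 * k : ℝ) ≤ wI k := by exact_mod_cast t4
    rw [F]
    nlinarith [mul_nonneg (sub_nonneg.mpr h1) (sub_nonneg.mpr t4'), mul_nonneg (sub_nonneg.mpr h2) t3']
  | succ n ih =>
    intro a b k h h1 h2
    obtain ⟨-, -, -, -, t5, t6⟩ := tab k
    have t5' : (gI k : ℝ) * (10000 + wI (k - 1)) ≤ 10000 * wI k := by exact_mod_cast t5
    have t6' : (k : ℝ) * gI k * 10000 + (10000 - gI k) * wI (k + 1) ≤ 10000 * wI k := by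
      exact_mod_cast t6
    have hd : 0 ≤ b - a := by linarith
    rw [F]
    by_cases c : h < alp lam a b k []
    · have := ih a (alp lam a b k []) (k - 1) h h1 c.le
      rw [decide_eq_true c, abs_of_pos (by linarith),
        show sub (alp lam a b k) true = alp lam a (alp lam a b k []) (k - 1) from rfl]
      simp only [alp, lam] at *
      push_cast at this
      nlinarith [mul_nonneg hd (sub_nonneg.mpr t5')]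
    · have := ih (alp lam a b k []) b (k + 1) h (not_lt.mp c) h2
      rw [decide_eq_false c, abs_of_nonpos (by linarith),
        show sub (alp lam a b k) false = alp lam (alp lam a b k []) b (k + 1) from rfl]
      simp only [alp, lam] at *
      push_cast at this
      nlinarith [mul_nonneg hd (sub_nonneg.mpr t6')]

theorem alp_mem (s : List Bool) : ∀ (a b : ℝ) (k : ℤ), a ∈ Icc (0 : ℝ) 1 → b ∈ Icc (0 : ℝ) 1 →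
    alp lam a b k s ∈ Icc (0 : ℝ) 1 := by
  have k0 : ∀ (a b : ℝ) (k : ℤ), a ∈ Icc (0 : ℝ) 1 → b ∈ Icc (0 : ℝ) 1 →
      lam k * a + (1 - lam k) * b ∈ Icc (0 : ℝ) 1 := by
    intro a b k ha hb
    obtain ⟨t1, t2, -⟩ := tab k
    have t1' : (0 : ℝ) ≤ gI k := by exact_mod_cast t1
    have t2' : (gI k : ℝ) ≤ 10000 := by exact_mod_cast t2
    exact convex_Icc (0 : ℝ) 1 ha hb (a := lam k) (b := 1 - lam k) (by rw [lam]; linarith)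
      (by rw [lam]; linarith) (by ring)
  induction s with
  | nil => exact k0
  | cons x s ih =>
    intro a b k ha hb
    cases x
    exacts [ih _ _ _ (k0 a b k ha hb) hb, ih _ _ _ ha (k0 a b k ha hb)]

inductive Tr
  | l (c : ℕ) (j : ℤ)
  | n (g : ℕ) (x y : Tr)

open Tr

noncomputable def str : Tr → List Bool → ℝ
  | l c j, s => alp lam (c / 96) ((c + 1) / 96) j s
  | n g _ _, [] => g / 96
  | n _ x _, true :: s => str x s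
  | n _ _ y, false :: s => str y s

def wf : Tr → Bool
  | l c _ => c < 96
  | n g x y => g < 96 && wf x && wf y

theorem str_mem (t : Tr) (h : wf t = true) (s : List Bool) : str t s ∈ Icc (0 : ℝ) 1 := by
  induction t generalizing s with
  | l c j =>
    have : (c : ℝ) + 1 ≤ 96 := by exact_mod_cast (by simpa [wf] using h : c < 96)
    exact alp_mem s _ _ _ ⟨by positivity, by linarith⟩ ⟨by positivity, by linarith⟩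
  | n g x y ihx ihy =>
    simp only [wf, Bool.and_eq_true, decide_eq_true_eq] at h
    have : (g : ℝ) < 96 := by exact_mod_cast h.1.1
    match s with
    | [] => exact ⟨by rw [str]; positivity, by rw [str]; linarith⟩
    | true :: s => exact ihx h.1.2 s
    | false :: s => exact ihy h.2 s

/-- value (in units of `1 / 960000`), residual slope, and the cell reached -/
def ev (c : ℕ) : Tr → ℤ × ℤ × ℕ
  | l d j => (wI j, -j, d)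
  | n g x y => if c < g then ((ev c x).1 + 10000 * (g - c), (ev c x).2.1 - 1, (ev c x).2.2)
      else ((ev c y).1 + 10000 * (c - g), (ev c y).2.1 + 1, (ev c y).2.2)

theorem tree (c : ℕ) (h : ℝ) (h1 : c / 96 ≤ h) (h2 : h ≤ (c + 1) / 96)
    (h3 : ∀ g : ℕ, g < 96 → (h < g / 96 ↔ c < g)) (t : Tr) (hw : wf t = true)
    (hc : (ev c t).2.2 = c) (m : ℕ) :
    F m (str t) h ≤ (ev c t).1 / 960000 + (ev c t).2.1 * (h - c / 96) := by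
  have mono : ∀ (m : ℕ) (τ : List Bool → ℝ), F m τ h ≤ F (m + 1) τ h := fun m τ => by
    rw [← F_eq, ← F_eq, Finset.sum_range_succ]; linarith [abs_nonneg (τ (hist τ h m) - h)]
  induction t generalizing m with
  | l d j =>
    obtain rfl : d = c := hc
    have := tail m _ _ j h h1 h2
    rw [show str (l d j) = alp lam (d / 96) ((d + 1) / 96) j from funext fun s => by rw [str]]
    simp only [ev]
    push_cast
    linarith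
  | n g x y ihx ihy =>
    simp only [wf, Bool.and_eq_true, decide_eq_true_eq] at hw
    refine (mono m _).trans ?_
    rw [F, show str (n g x y) [] = g / 96 from rfl]
    by_cases e : c < g
    · have e' := (h3 g hw.1.1).mpr e
      simp only [ev, if_pos e] at hc ⊢
      rw [decide_eq_true e', abs_of_pos (by linarith), show sub (str (n g x y)) true = str x from rfl]
      push_cast
      linarith [ihx hw.1.2 hc m]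
    · have e' := (h3 g hw.1.1).not.mpr e
      simp only [ev, if_neg e] at hc ⊢
      rw [decide_eq_false e', abs_of_nonpos (by linarith),
        show sub (str (n g x y)) false = str y from rfl]
      push_cast
      linarith [ihy hw.2 hc m]

def t0 : Tr := n 47 (n 6 (n 1 (l 0 (-3)) (n 2 (l 1 (-2)) (n 4 (n 3 (l 2 (-1)) (l 3 (-1))) (n 5 (l 4 (-1)) (l 5 0))))) (n 25 (n 12 (n 7 (l 6 0) (n 10 (n 8 (l 7 0) (n 9 (l 8 0) (l 9 0))) (n 11 (l 10 (-1)) (l 11 (-1))))) (n 16 (n 14 (n 13 (l 12 (-1)) (l 13 (-1))) (n 15 (l 14 (-1)) (l 15 (-1)))) (n 21 (n 17 (l 16 (-1)) (n 19 (n 18 (l 17 (-1)) (l 18 0)) (n 20 (l 19 0) (l 20 0)))) (n 23 (n 22 (l 21 0) (l 22 1)) (n 24 (l 23 1) (l 24 0)))))) (n 43 (n 35 (n 30 (n 26 (l 25 (-1)) (n 29 (n 27 (l 26 0) (n 28 (l 27 0) (l 28 1))) (l 29 1))) (n 32 (n 31 (l 30 0) (l 31 0)) (n 33 (l 32 0) (n 34 (l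 33 0) (l 34 1))))) (n 41 (n 38 (n 37 (n 36 (l 35 1) (l 36 1)) (l 37 0)) (n 40 (n 39 (l 38 1) (l 39 0)) (l 40 1))) (n 42 (l 41 1) (l 42 1)))) (n 46 (n 45 (n 44 (l 43 2) (l 44 2)) (l 45 2)) (l 46 2))))) (n 85 (n 64 (n 51 (n 49 (n 48 (l 47 0) (l 48 0)) (n 50 (l 49 0) (l 50 (-1)))) (n 55 (n 52 (l 51 (-1)) (n 53 (l 52 (-1)) (n 54 (l 53 0) (l 54 0)))) (n 61 (n 58 (n 56 (l 55 0) (n 57 (l 56 0) (l 57 0))) (n 59 (l 58 0) (n 60 (l 59 1) (l 60 1)))) (n 63 (n 62 (l 61 1) (l 62 1)) (l 63 0))))) (n 80 (n 71 (n 67 (n 65 (l 64 0) (n 66 (l 65 0) (l 66 1))) (n 68 (l 67 1) (n 69 (l 68 0) (n 70 (l 69 0) (l 70 1))))) (n 77 (n 74 (n 73 (n 72 (l 71 1) (l 72 1)) (l 73 1)) (n 75 (l 74 1) (n 76 (l 75 1) (l 76 0)))) (n 79 (n 78 (l 77 1) (l 78 2)) (l 79 2)))) (n 83 (n 82 (n 81 (l 80 1) (l 81 2)) (l 82 2)) (n 84 (l 83 2) (l 84 1))))) (n 95 (n 92 (n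 87 (n 86 (l 85 2) (l 86 1)) (n 89 (n 88 (l 87 2) (l 88 1)) (n 91 (n 90 (l 89 0) (l 90 1)) (l 91 2)))) (n 94 (n 93 (l 92 1) (l 93 3)) (l 94 3))) (l 95 4)))

def t1 : Tr := n 50 (n 13 (n 2 (n 1 (l 0 (-3)) (l 1 (-2))) (n 10 (n 7 (n 3 (l 2 (-2)) (n 6 (n 4 (l 3 (-1)) (n 5 (l 4 (-1)) (l 5 0))) (l 6 0))) (n 9 (n 8 (l 7 0) (l 8 (-1))) (l 9 0))) (n 11 (l 10 (-1)) (n 12 (l 11 (-1)) (l 12 (-1)))))) (n 37 (n 23 (n 15 (n 14 (l 13 (-1)) (l 14 (-1))) (n 18 (n 16 (l 15 (-1)) (n 17 (l 16 (-1)) (l 17 (-1)))) (n 22 (n 20 (n 19 (l 18 0) (l 19 0)) (n 21 (l 20 0) (l 21 0))) (l 22 1)))) (n 30 (n 27 (n 25 (n 24 (l 23 0) (l 24 0)) (n 26 (l 25 (-1)) (l 26 0))) (n 29 (n 28 (l 27 0) (l 28 1)) (l 29 0))) (n 33 (n 31 (l 30 0) (n 32 (l 31 0) (l 32 0))) (n 35 (n 34 (l 33 0) (l 34 1)) (n 36 (l 35 1) (l 36 1)))))) (n 46 (n 44 (n 41 (n 39 (n 38 (l 37 0)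 (l 38 1)) (n 40 (l 39 0) (l 40 1))) (n 43 (n 42 (l 41 1) (l 42 1)) (l 43 1))) (n 45 (l 44 2) (l 45 2))) (n 47 (l 46 2) (n 48 (l 47 0) (n 49 (l 48 0) (l 49 0))))))) (n 88 (n 71 (n 57 (n 52 (n 51 (l 50 (-1)) (l 51 (-1))) (n 54 (n 53 (l 52 (-1)) (l 53 0)) (n 55 (l 54 0) (n 56 (l 55 0) (l 56 0))))) (n 64 (n 61 (n 59 (n 58 (l 57 0) (l 58 0)) (n 60 (l 59 1) (l 60 1))) (n 63 (n 62 (l 61 1) (l 62 1)) (l 63 0))) (n 68 (n 66 (n 65 (l 64 0) (l 65 0)) (n 67 (l 66 1) (l 67 1))) (n 69 (l 68 0) (n 70 (l 69 0) (l 70 1)))))) (n 84 (n 79 (n 73 (n 72 (l 71 1) (l 72 1)) (n 75 (n 74 (l 73 0) (l 74 1)) (n 78 (n 76 (l 75 1) (n 77 (l 76 0) (l 77 1))) (l 78 2)))) (n 83 (n 81 (n 80 (l 79 2) (l 80 1)) (n 82 (l 81 2) (l 82 2))) (l 83 2))) (n 87 (n 86 (n 85 (l 84 1) (l 85 2)) (l 86 1)) (l 87 1)))) (n 95 (n 92 (n 89 (l 88 1) (n 91 (n 90 (l 89 0) (l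 90 1)) (l 91 2))) (n 94 (n 93 (l 92 1) (l 93 2)) (l 94 3))) (l 95 4)))

def t2 : Tr := n 48 (n 12 (n 1 (l 0 (-3)) (n 6 (n 3 (n 2 (l 1 (-2)) (l 2 (-2))) (n 4 (l 3 (-1)) (n 5 (l 4 (-1)) (l 5 0)))) (n 10 (n 8 (n 7 (l 6 0) (l 7 (-1))) (n 9 (l 8 (-1)) (l 9 0))) (n 11 (l 10 (-1)) (l 11 (-1)))))) (n 32 (n 19 (n 14 (n 13 (l 12 (-1)) (l 13 (-1))) (n 16 (n 15 (l 14 (-1)) (l 15 (-1))) (n 17 (l 16 (-1)) (n 18 (l 17 (-1)) (l 18 0))))) (n 26 (n 24 (n 23 (n 21 (n 20 (l 19 (-1)) (l 20 0)) (n 22 (l 21 0) (l 22 1))) (l 23 0)) (n 25 (l 24 0) (l 25 (-1)))) (n 29 (n 28 (n 27 (l 26 0) (l 27 0)) (l 28 0)) (n 31 (n 30 (l 29 0) (l 30 0)) (l 31 0))))) (n 44 (n 39 (n 36 (n 34 (n 33 (l 32 0) (l 33 0)) (n 35 (l 34 1) (l 35 1))) (n 37 (l 36 1) (n 38 (l 37 0) (l 38 1)))) (n 43 (n 41 (n 40 (l 39 0) (l 40 1)) (n 42 (l 41 1) (l 42 1))) (l 43 1))) (n 46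 (n 45 (l 44 2) (l 45 2)) (n 47 (l 46 2) (l 47 0)))))) (n 83 (n 63 (n 53 (n 50 (n 49 (l 48 0) (l 49 0)) (n 51 (l 50 (-1)) (n 52 (l 51 (-1)) (l 52 (-1))))) (n 57 (n 55 (n 54 (l 53 0) (l 54 0)) (n 56 (l 55 0) (l 56 0))) (n 60 (n 58 (l 57 0) (n 59 (l 58 0) (l 59 1))) (n 62 (n 61 (l 60 1) (l 61 1)) (l 62 0))))) (n 73 (n 68 (n 66 (n 65 (n 64 (l 63 0) (l 64 0)) (l 65 0)) (n 67 (l 66 1) (l 67 1))) (n 70 (n 69 (l 68 0) (l 69 0)) (n 72 (n 71 (l 70 1) (l 71 0)) (l 72 1)))) (n 80 (n 77 (n 75 (n 74 (l 73 0) (l 74 1)) (n 76 (l 75 0) (l 76 0))) (n 79 (n 78 (l 77 1) (l 78 2)) (l 79 2))) (n 82 (n 81 (l 80 1) (l 81 1)) (l 82 2))))) (n 94 (n 86 (n 84 (l 83 2) (n 85 (l 84 1) (l 85 2))) (n 88 (n 87 (l 86 1) (l 87 1)) (n 92 (n 91 (n 89 (l 88 1) (n 90 (l 89 0) (l 90 1))) (l 91 2)) (n 93 (l 92 1) (l 93 2))))) (n 95 (l 94 3) (l 95 3))))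

def t3 : Tr := n 48 (n 12 (n 1 (l 0 (-3)) (n 6 (n 2 (l 1 (-3)) (n 3 (l 2 (-2)) (n 4 (l 3 (-1)) (n 5 (l 4 (-1)) (l 5 0))))) (n 10 (n 8 (n 7 (l 6 (-1)) (l 7 (-1))) (n 9 (l 8 (-1)) (l 9 0))) (n 11 (l 10 (-1)) (l 11 (-1)))))) (n 33 (n 19 (n 14 (n 13 (l 12 (-1)) (l 13 (-1))) (n 15 (l 14 (-1)) (n 17 (n 16 (l 15 (-1)) (l 16 (-1))) (n 18 (l 17 (-1)) (l 18 0))))) (n 27 (n 23 (n 20 (l 19 (-1)) (n 22 (n 21 (l 20 0) (l 21 0)) (l 22 1))) (n 25 (n 24 (l 23 0) (l 24 0)) (n 26 (l 25 (-1)) (l 26 0)))) (n 30 (n 29 (n 28 (l 27 0) (l 28 0)) (l 29 0)) (n 31 (l 30 0) (n 32 (l 31 0) (l 32 0)))))) (n 45 (n 41 (n 37 (n 35 (n 34 (l 33 0) (l 34 1)) (n 36 (l 35 1) (l 36 1))) (n 39 (n 38 (l 37 0) (l 38 0)) (n 40 (l 39 0) (l 40 1)))) (n 44 (n 43 (n 42 (l 41 1) (l 42 1)) (l 43 1)) (l 44 2))) (n 47 (n 46 (l 45 1) (l 46 1)) (l 47 0))))) (n 82 (n 63 (n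 52 (n 50 (n 49 (l 48 (-1)) (l 49 0)) (n 51 (l 50 (-1)) (l 51 (-1)))) (n 56 (n 53 (l 52 (-1)) (n 54 (l 53 0) (n 55 (l 54 0) (l 55 0)))) (n 59 (n 57 (l 56 0) (n 58 (l 57 0) (l 58 0))) (n 61 (n 60 (l 59 1) (l 60 1)) (n 62 (l 61 1) (l 62 0)))))) (n 74 (n 69 (n 66 (n 65 (n 64 (l 63 0) (l 64 0)) (l 65 0)) (n 68 (n 67 (l 66 1) (l 67 0)) (l 68 0))) (n 72 (n 70 (l 69 (-1)) (n 71 (l 70 1) (l 71 0))) (n 73 (l 72 1) (l 73 0)))) (n 79 (n 76 (n 75 (l 74 1) (l 75 0)) (n 77 (l 76 0) (n 78 (l 77 0) (l 78 2)))) (n 80 (l 79 1) (n 81 (l 80 1) (l 81 1)))))) (n 93 (n 85 (n 83 (l 82 2) (n 84 (l 83 2) (l 84 1))) (n 86 (l 85 2) (n 88 (n 87 (l 86 1) (l 87 1)) (n 92 (n 90 (n 89 (l 88 1) (l 89 0)) (n 91 (l 90 1) (l 91 2))) (l 92 1))))) (n 95 (n 94 (l 93 2) (l 94 3)) (l 95 3))))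

def t4 : Tr := n 47 (n 11 (n 1 (l 0 (-3)) (n 3 (n 2 (l 1 (-3)) (l 2 (-2))) (n 8 (n 4 (l 3 (-2)) (n 7 (n 6 (n 5 (l 4 (-1)) (l 5 0)) (l 6 (-1))) (l 7 (-1)))) (n 10 (n 9 (l 8 (-1)) (l 9 0)) (l 10 (-1)))))) (n 30 (n 17 (n 13 (n 12 (l 11 (-1)) (l 12 (-1))) (n 14 (l 13 (-1)) (n 15 (l 14 (-1)) (n 16 (l 15 (-1)) (l 16 (-1)))))) (n 24 (n 20 (n 19 (n 18 (l 17 (-1)) (l 18 0)) (l 19 (-1))) (n 22 (n 21 (l 20 0) (l 21 0)) (n 23 (l 22 1) (l 23 0)))) (n 27 (n 26 (n 25 (l 24 0) (l 25 (-1))) (l 26 0)) (n 29 (n 28 (l 27 0) (l 28 0)) (l 29 0))))) (n 43 (n 36 (n 33 (n 31 (l 30 0) (n 32 (l 31 0) (l 32 0))) (n 35 (n 34 (l 33 0) (l 34 1)) (l 35 1))) (n 39 (n 37 (l 36 1) (n 38 (l 37 0) (l 38 0))) (n 42 (n 40 (l 39 0) (n 41 (l 40 1) (l 41 1))) (l 42 1)))) (n 46 (n 45 (n 44 (l 43 1) (l 44 2)) (l 45 1)) (l 46 1))))) (n 84 (n 62 (n 51 (n 50 (n 48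 (l 47 0) (n 49 (l 48 (-1)) (l 49 0))) (l 50 (-1))) (n 54 (n 52 (l 51 (-2)) (n 53 (l 52 (-1)) (l 53 (-1)))) (n 58 (n 56 (n 55 (l 54 0) (l 55 (-1))) (n 57 (l 56 0) (l 57 (-1)))) (n 61 (n 60 (n 59 (l 58 0) (l 59 1)) (l 60 1)) (l 61 1))))) (n 76 (n 69 (n 65 (n 64 (n 63 (l 62 0) (l 63 0)) (l 64 0)) (n 67 (n 66 (l 65 (-1)) (l 66 1)) (n 68 (l 67 0) (l 68 0)))) (n 72 (n 71 (n 70 (l 69 (-1)) (l 70 0)) (l 71 0)) (n 74 (n 73 (l 72 0) (l 73 0)) (n 75 (l 74 0) (l 75 0))))) (n 81 (n 79 (n 78 (n 77 (l 76 0) (l 77 0)) (l 78 1)) (n 80 (l 79 1) (l 80 1))) (n 83 (n 82 (l 81 1) (l 82 2)) (l 83 1))))) (n 95 (n 89 (n 86 (n 85 (l 84 1) (l 85 2)) (n 88 (n 87 (l 86 1) (l 87 1)) (l 88 1))) (n 94 (n 92 (n 91 (n 90 (l 89 0) (l 90 1)) (l 91 2)) (n 93 (l 92 1) (l 93 2))) (l 94 3))) (l 95 3)))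

def t5 : Tr := n 50 (n 14 (n 2 (n 1 (l 0 (-3)) (l 1 (-3))) (n 9 (n 5 (n 3 (l 2 (-2)) (n 4 (l 3 (-2)) (l 4 (-1)))) (n 8 (n 7 (n 6 (l 5 0) (l 6 (-1))) (l 7 (-1))) (l 8 (-1)))) (n 12 (n 10 (l 9 0) (n 11 (l 10 (-2)) (l 11 (-1)))) (n 13 (l 12 (-1)) (l 13 (-1)))))) (n 36 (n 23 (n 17 (n 15 (l 14 (-1)) (n 16 (l 15 (-1)) (l 16 (-1)))) (n 19 (n 18 (l 17 (-1)) (l 18 0)) (n 21 (n 20 (l 19 (-1)) (l 20 0)) (n 22 (l 21 0) (l 22 1))))) (n 29 (n 26 (n 25 (n 24 (l 23 0) (l 24 0)) (l 25 (-1))) (n 28 (n 27 (l 26 0) (l 27 0)) (l 28 0))) (n 32 (n 30 (l 29 0) (n 31 (l 30 0) (l 31 0))) (n 35 (n 33 (l 32 0) (n 34 (l 33 (-1)) (l 34 1))) (l 35 0))))) (n 46 (n 41 (n 39 (n 37 (l 36 1) (n 38 (l 37 0) (l 38 0))) (n 40 (l 39 0) (l 40 1))) (n 44 (n 42 (l 41 1) (n 43 (l 42 1) (l 43 1))) (n 45 (l 44 2) (l 45 1)))) (n 47 (l 46 1) (n 49 (n 48 (l 47 0) (l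 48 (-1))) (l 49 0)))))) (n 87 (n 68 (n 55 (n 51 (l 50 (-1)) (n 52 (l 51 (-2)) (n 53 (l 52 (-1)) (n 54 (l 53 (-1)) (l 54 (-1)))))) (n 62 (n 58 (n 57 (n 56 (l 55 (-1)) (l 56 0)) (l 57 (-1))) (n 60 (n 59 (l 58 0) (l 59 1)) (n 61 (l 60 1) (l 61 1)))) (n 64 (n 63 (l 62 0) (l 63 0)) (n 66 (n 65 (l 64 0) (l 65 (-1))) (n 67 (l 66 0) (l 67 0)))))) (n 80 (n 75 (n 72 (n 70 (n 69 (l 68 0) (l 69 (-1))) (n 71 (l 70 0) (l 71 0))) (n 74 (n 73 (l 72 0) (l 73 0)) (l 74 0))) (n 78 (n 76 (l 75 0) (n 77 (l 76 0) (l 77 0))) (n 79 (l 78 1) (l 79 1)))) (n 83 (n 82 (n 81 (l 80 1) (l 81 1)) (l 82 2)) (n 84 (l 83 1) (n 86 (n 85 (l 84 1) (l 85 2)) (l 86 1)))))) (n 95 (n 92 (n 91 (n 89 (n 88 (l 87 1) (l 88 1)) (n 90 (l 89 (-1)) (l 90 1))) (l 91 1)) (n 94 (n 93 (l 92 1) (l 93 2)) (l 94 3))) (l 95 3)))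

def t6 : Tr := n 45 (n 9 (n 1 (l 0 (-3)) (n 3 (n 2 (l 1 (-3)) (l 2 (-2))) (n 6 (n 4 (l 3 (-2)) (n 5 (l 4 (-1)) (l 5 0))) (n 8 (n 7 (l 6 (-1)) (l 7 (-1))) (l 8 (-1)))))) (n 25 (n 15 (n 13 (n 11 (n 10 (l 9 0) (l 10 (-2))) (n 12 (l 11 (-1)) (l 12 (-2)))) (n 14 (l 13 (-1)) (l 14 (-1)))) (n 18 (n 17 (n 16 (l 15 (-1)) (l 16 (-1))) (l 17 (-1))) (n 21 (n 20 (n 19 (l 18 0) (l 19 (-1))) (l 20 0)) (n 24 (n 23 (n 22 (l 21 0) (l 22 1)) (l 23 0)) (l 24 0))))) (n 37 (n 31 (n 28 (n 26 (l 25 (-1)) (n 27 (l 26 0) (l 27 0))) (n 30 (n 29 (l 28 0) (l 29 0)) (l 30 0))) (n 34 (n 33 (n 32 (l 31 0) (l 32 0)) (l 33 (-1))) (n 35 (l 34 1) (n 36 (l 35 0) (l 36 0))))) (n 42 (n 39 (n 38 (l 37 0) (l 38 0)) (n 41 (n 40 (l 39 0) (l 40 1)) (l 41 1))) (n 44 (n 43 (l 42 1) (l 43 1)) (l 44 1)))))) (n 84 (n 62 (n 50 (n 47 (n 46 (l 45 1) (l 46 1)) (n 49 (n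 48 (l 47 0) (l 48 (-1))) (l 49 (-1)))) (n 54 (n 51 (l 50 (-1)) (n 52 (l 51 (-2)) (n 53 (l 52 (-1)) (l 53 (-1))))) (n 58 (n 56 (n 55 (l 54 (-1)) (l 55 (-1))) (n 57 (l 56 0) (l 57 (-1)))) (n 60 (n 59 (l 58 0) (l 59 1)) (n 61 (l 60 1) (l 61 0)))))) (n 76 (n 69 (n 65 (n 64 (n 63 (l 62 0) (l 63 0)) (l 64 0)) (n 67 (n 66 (l 65 (-1)) (l 66 0)) (n 68 (l 67 0) (l 68 0)))) (n 73 (n 71 (n 70 (l 69 (-1)) (l 70 0)) (n 72 (l 71 0) (l 72 0))) (n 75 (n 74 (l 73 0) (l 74 0)) (l 75 0)))) (n 82 (n 81 (n 79 (n 78 (n 77 (l 76 0) (l 77 0)) (l 78 1)) (n 80 (l 79 1) (l 80 1))) (l 81 1)) (n 83 (l 82 2) (l 83 1))))) (n 95 (n 91 (n 87 (n 86 (n 85 (l 84 1) (l 85 2)) (l 86 1)) (n 89 (n 88 (l 87 1) (l 88 1)) (n 90 (l 89 (-1)) (l 90 1)))) (n 94 (n 93 (n 92 (l 91 1) (l 92 1)) (l 93 2)) (l 94 3))) (l 95 3)))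

def t7 : Tr := n 48 (n 10 (n 1 (l 0 (-3)) (n 3 (n 2 (l 1 (-3)) (l 2 (-2))) (n 7 (n 4 (l 3 (-2)) (n 6 (n 5 (l 4 (-1)) (l 5 0)) (l 6 (-1)))) (n 9 (n 8 (l 7 (-1)) (l 8 (-1))) (l 9 0))))) (n 28 (n 15 (n 11 (l 10 (-2)) (n 13 (n 12 (l 11 (-1)) (l 12 (-2))) (n 14 (l 13 (-1)) (l 14 (-2))))) (n 21 (n 17 (n 16 (l 15 (-1)) (l 16 (-1))) (n 19 (n 18 (l 17 (-1)) (l 18 (-1))) (n 20 (l 19 (-1)) (l 20 0)))) (n 25 (n 23 (n 22 (l 21 0) (l 22 1)) (n 24 (l 23 0) (l 24 0))) (n 27 (n 26 (l 25 (-1)) (l 26 0)) (l 27 0))))) (n 42 (n 35 (n 32 (n 30 (n 29 (l 28 0) (l 29 0)) (n 31 (l 30 0) (l 31 0))) (n 33 (l 32 0) (n 34 (l 33 (-1)) (l 34 0)))) (n 38 (n 36 (l 35 0) (n 37 (l 36 0) (l 37 0))) (n 41 (n 40 (n 39 (l 38 0) (l 39 0)) (l 40 0)) (l 41 1)))) (n 46 (n 45 (n 44 (n 43 (l 42 1) (l 43 1)) (l 44 1)) (l 45 1)) (n 47 (l 46 1) (l 47 0)))))) (n 88 (n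 68 (n 54 (n 50 (n 49 (l 48 (-1)) (l 49 (-1))) (n 51 (l 50 (-1)) (n 52 (l 51 (-2)) (n 53 (l 52 (-1)) (l 53 (-1)))))) (n 61 (n 57 (n 55 (l 54 (-1)) (n 56 (l 55 (-1)) (l 56 (-1)))) (n 59 (n 58 (l 57 (-1)) (l 58 0)) (n 60 (l 59 0) (l 60 0)))) (n 64 (n 62 (l 61 0) (n 63 (l 62 0) (l 63 (-1)))) (n 66 (n 65 (l 64 0) (l 65 (-1))) (n 67 (l 66 0) (l 67 0)))))) (n 81 (n 76 (n 72 (n 70 (n 69 (l 68 (-1)) (l 69 (-1))) (n 71 (l 70 0) (l 71 0))) (n 74 (n 73 (l 72 0) (l 73 0)) (n 75 (l 74 0) (l 75 0)))) (n 79 (n 78 (n 77 (l 76 0) (l 77 0)) (l 78 1)) (n 80 (l 79 1) (l 80 1)))) (n 84 (n 83 (n 82 (l 81 1) (l 82 2)) (l 83 1)) (n 86 (n 85 (l 84 1) (l 85 2)) (n 87 (l 86 1) (l 87 1)))))) (n 95 (n 94 (n 92 (n 90 (n 89 (l 88 1) (l 89 (-1))) (n 91 (l 90 1) (l 91 1))) (n 93 (l 92 1) (l 93 2))) (l 94 3)) (l 95 3)))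

def t8 : Tr := n 46 (n 8 (n 1 (l 0 (-3)) (n 3 (n 2 (l 1 (-3)) (l 2 (-2))) (n 5 (n 4 (l 3 (-2)) (l 4 (-1))) (n 7 (n 6 (l 5 0) (l 6 (-1))) (l 7 (-1)))))) (n 24 (n 14 (n 11 (n 10 (n 9 (l 8 (-1)) (l 9 0)) (l 10 (-2))) (n 13 (n 12 (l 11 (-1)) (l 12 (-2))) (l 13 (-1)))) (n 17 (n 15 (l 14 (-2)) (n 16 (l 15 (-1)) (l 16 (-1)))) (n 20 (n 19 (n 18 (l 17 (-1)) (l 18 (-1))) (l 19 (-1))) (n 22 (n 21 (l 20 0) (l 21 0)) (n 23 (l 22 1) (l 23 0)))))) (n 38 (n 30 (n 27 (n 25 (l 24 (-1)) (n 26 (l 25 (-1)) (l 26 0))) (n 29 (n 28 (l 27 0) (l 28 0)) (l 29 0))) (n 34 (n 32 (n 31 (l 30 (-1)) (l 31 0)) (n 33 (l 32 0) (l 33 (-1)))) (n 36 (n 35 (l 34 0) (l 35 0)) (n 37 (l 36 0) (l 37 0))))) (n 43 (n 42 (n 40 (n 39 (l 38 0) (l 39 0)) (n 41 (l 40 0) (l 41 1))) (l 42 1)) (n 45 (n 44 (l 43 1) (l 44 1)) (l 45 1)))))) (n 86 (n 65 (n 51 (n 49 (n 47 (l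 46 1) (n 48 (l 47 0) (l 48 (-1)))) (n 50 (l 49 (-1)) (l 50 (-1)))) (n 57 (n 53 (n 52 (l 51 (-2)) (l 52 (-1))) (n 55 (n 54 (l 53 (-1)) (l 54 (-1))) (n 56 (l 55 (-1)) (l 56 (-1))))) (n 61 (n 59 (n 58 (l 57 (-1)) (l 58 0)) (n 60 (l 59 0) (l 60 0))) (n 63 (n 62 (l 61 0) (l 62 0)) (n 64 (l 63 (-1)) (l 64 0)))))) (n 80 (n 74 (n 69 (n 67 (n 66 (l 65 (-1)) (l 66 0)) (n 68 (l 67 0) (l 68 (-1)))) (n 72 (n 71 (n 70 (l 69 (-1)) (l 70 0)) (l 71 0)) (n 73 (l 72 0) (l 73 0)))) (n 78 (n 76 (n 75 (l 74 0) (l 75 0)) (n 77 (l 76 (-1)) (l 77 0))) (n 79 (l 78 1) (l 79 1)))) (n 83 (n 82 (n 81 (l 80 1) (l 81 1)) (l 82 2)) (n 84 (l 83 1) (n 85 (l 84 1) (l 85 2)))))) (n 95 (n 93 (n 90 (n 88 (n 87 (l 86 0) (l 87 1)) (n 89 (l 88 1) (l 89 (-1)))) (n 92 (n 91 (l 90 1) (l 91 1)) (l 92 1))) (n 94 (l 93 2) (l 94 2))) (l 95 3)))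

def t9 : Tr := n 49 (n 10 (n 1 (l 0 (-3)) (n 3 (n 2 (l 1 (-3)) (l 2 (-2))) (n 6 (n 4 (l 3 (-2)) (n 5 (l 4 (-2)) (l 5 0))) (n 8 (n 7 (l 6 (-1)) (l 7 (-1))) (n 9 (l 8 (-1)) (l 9 0)))))) (n 29 (n 16 (n 13 (n 11 (l 10 (-2)) (n 12 (l 11 (-2)) (l 12 (-2)))) (n 14 (l 13 (-2)) (n 15 (l 14 (-2)) (l 15 (-1))))) (n 22 (n 18 (n 17 (l 16 (-1)) (l 17 (-2))) (n 20 (n 19 (l 18 (-1)) (l 19 (-1))) (n 21 (l 20 (-1)) (l 21 0)))) (n 25 (n 24 (n 23 (l 22 0) (l 23 0)) (l 24 (-1))) (n 27 (n 26 (l 25 (-1)) (l 26 0)) (n 28 (l 27 (-1)) (l 28 0)))))) (n 44 (n 37 (n 33 (n 31 (n 30 (l 29 0) (l 30 (-1))) (n 32 (l 31 0) (l 32 (-1)))) (n 35 (n 34 (l 33 (-1)) (l 34 0)) (n 36 (l 35 0) (l 36 0)))) (n 42 (n 40 (n 39 (n 38 (l 37 (-1)) (l 38 0)) (l 39 0)) (n 41 (l 40 0) (l 41 0))) (n 43 (l 42 1) (l 43 1)))) (n 47 (n 46 (n 45 (l 44 1) (l 45 1)) (l 46 1)) (n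 48 (l 47 0) (l 48 (-1))))))) (n 89 (n 73 (n 56 (n 51 (n 50 (l 49 (-1)) (l 50 (-1))) (n 52 (l 51 (-2)) (n 54 (n 53 (l 52 (-2)) (l 53 (-1))) (n 55 (l 54 (-1)) (l 55 (-1)))))) (n 65 (n 61 (n 59 (n 57 (l 56 (-1)) (n 58 (l 57 (-1)) (l 58 (-1)))) (n 60 (l 59 0) (l 60 0))) (n 63 (n 62 (l 61 0) (l 62 0)) (n 64 (l 63 (-1)) (l 64 (-1))))) (n 68 (n 67 (n 66 (l 65 (-1)) (l 66 0)) (l 67 0)) (n 70 (n 69 (l 68 (-1)) (l 69 (-1))) (n 72 (n 71 (l 70 0) (l 71 0)) (l 72 0)))))) (n 83 (n 80 (n 77 (n 76 (n 74 (l 73 0) (n 75 (l 74 0) (l 75 0))) (l 76 (-1))) (n 79 (n 78 (l 77 0) (l 78 1)) (l 79 1))) (n 82 (n 81 (l 80 1) (l 81 1)) (l 82 2))) (n 86 (n 85 (n 84 (l 83 1) (l 84 1)) (l 85 1)) (n 87 (l 86 0) (n 88 (l 87 1) (l 88 0)))))) (n 95 (n 94 (n 93 (n 92 (n 91 (n 90 (l 89 (-1)) (l 90 0)) (l 91 1)) (l 92 1)) (l 93 2)) (l 94 2)) (l 95 3)))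

def t10 : Tr := n 47 (n 7 (n 1 (l 0 (-4)) (n 2 (l 1 (-3)) (n 4 (n 3 (l 2 (-2)) (l 3 (-2))) (n 5 (l 4 (-2)) (n 6 (l 5 0) (l 6 (-1))))))) (n 24 (n 14 (n 11 (n 10 (n 8 (l 7 (-1)) (n 9 (l 8 (-1)) (l 9 (-1)))) (l 10 (-2))) (n 13 (n 12 (l 11 (-2)) (l 12 (-2))) (l 13 (-2)))) (n 16 (n 15 (l 14 (-2)) (l 15 (-1))) (n 20 (n 18 (n 17 (l 16 (-1)) (l 17 (-2))) (n 19 (l 18 (-1)) (l 19 (-1)))) (n 22 (n 21 (l 20 (-1)) (l 21 0)) (n 23 (l 22 0) (l 23 0)))))) (n 40 (n 32 (n 28 (n 26 (n 25 (l 24 (-1)) (l 25 (-1))) (n 27 (l 26 (-1)) (l 27 (-1)))) (n 30 (n 29 (l 28 0) (l 29 0)) (n 31 (l 30 (-1)) (l 31 0)))) (n 36 (n 34 (n 33 (l 32 (-1)) (l 33 (-1))) (n 35 (l 34 0) (l 35 0))) (n 38 (n 37 (l 36 0) (l 37 (-1))) (n 39 (l 38 0) (l 39 (-1)))))) (n 45 (n 43 (n 42 (n 41 (l 40 0) (l 41 0)) (l 42 1)) (n 44 (l 43 1) (l 44 1))) (n 46 (l 45 1) (l 46 1))))))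 (n 86 (n 67 (n 52 (n 49 (n 48 (l 47 0) (l 48 (-1))) (n 51 (n 50 (l 49 (-1)) (l 50 (-2))) (l 51 (-2)))) (n 60 (n 55 (n 53 (l 52 (-2)) (n 54 (l 53 (-1)) (l 54 (-1)))) (n 57 (n 56 (l 55 (-1)) (l 56 (-1))) (n 58 (l 57 (-1)) (n 59 (l 58 (-1)) (l 59 0))))) (n 63 (n 62 (n 61 (l 60 0) (l 61 0)) (l 62 0)) (n 65 (n 64 (l 63 (-1)) (l 64 (-1))) (n 66 (l 65 (-1)) (l 66 0)))))) (n 81 (n 75 (n 71 (n 69 (n 68 (l 67 0) (l 68 (-1))) (n 70 (l 69 (-1)) (l 70 0))) (n 73 (n 72 (l 71 0) (l 72 0)) (n 74 (l 73 0) (l 74 0)))) (n 79 (n 77 (n 76 (l 75 0) (l 76 (-1))) (n 78 (l 77 0) (l 78 1))) (n 80 (l 79 1) (l 80 1)))) (n 83 (n 82 (l 81 1) (l 82 2)) (n 85 (n 84 (l 83 1) (l 84 1)) (l 85 1))))) (n 95 (n 92 (n 89 (n 87 (l 86 0) (n 88 (l 87 1) (l 88 0))) (n 91 (n 90 (l 89 (-1)) (l 90 0)) (l 91 1))) (n 94 (n 93 (l 92 1) (l 93 2)) (l 94 2))) (l 95 3)))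

def t11 : Tr := n 51 (n 10 (n 1 (l 0 (-4)) (n 4 (n 2 (l 1 (-3)) (n 3 (l 2 (-2)) (l 3 (-2)))) (n 8 (n 7 (n 5 (l 4 (-2)) (n 6 (l 5 (-1)) (l 6 (-1)))) (l 7 (-1))) (n 9 (l 8 (-1)) (l 9 (-1)))))) (n 31 (n 16 (n 12 (n 11 (l 10 (-2)) (l 11 (-2))) (n 13 (l 12 (-2)) (n 14 (l 13 (-2)) (n 15 (l 14 (-2)) (l 15 (-1)))))) (n 23 (n 19 (n 17 (l 16 (-1)) (n 18 (l 17 (-2)) (l 18 (-1)))) (n 21 (n 20 (l 19 (-1)) (l 20 (-1))) (n 22 (l 21 0) (l 22 0)))) (n 27 (n 25 (n 24 (l 23 0) (l 24 (-1))) (n 26 (l 25 (-1)) (l 26 (-1)))) (n 29 (n 28 (l 27 (-1)) (l 28 0)) (n 30 (l 29 0) (l 30 (-1))))))) (n 45 (n 39 (n 35 (n 33 (n 32 (l 31 (-1)) (l 32 (-1))) (n 34 (l 33 (-1)) (l 34 0))) (n 36 (l 35 0) (n 37 (l 36 0) (n 38 (l 37 (-1)) (l 38 0))))) (n 43 (n 42 (n 41 (n 40 (l 39 (-1)) (l 40 0)) (l 41 0)) (l 42 1)) (n 44 (l 43 1) (l 44 1)))) (n 48 (n 47 (n 46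 (l 45 1) (l 46 1)) (l 47 0)) (n 49 (l 48 (-1)) (n 50 (l 49 (-1)) (l 50 (-2)))))))) (n 89 (n 75 (n 60 (n 53 (n 52 (l 51 (-2)) (l 52 (-2))) (n 56 (n 55 (n 54 (l 53 (-1)) (l 54 (-1))) (l 55 (-1))) (n 58 (n 57 (l 56 (-1)) (l 57 (-1))) (n 59 (l 58 (-1)) (l 59 0))))) (n 67 (n 63 (n 62 (n 61 (l 60 0) (l 61 0)) (l 62 0)) (n 65 (n 64 (l 63 (-1)) (l 64 (-1))) (n 66 (l 65 (-1)) (l 66 0)))) (n 72 (n 69 (n 68 (l 67 0) (l 68 (-1))) (n 71 (n 70 (l 69 (-1)) (l 70 0)) (l 71 0))) (n 74 (n 73 (l 72 0) (l 73 0)) (l 74 0))))) (n 83 (n 81 (n 79 (n 77 (n 76 (l 75 0) (l 76 (-1))) (n 78 (l 77 0) (l 78 1))) (n 80 (l 79 1) (l 80 1))) (n 82 (l 81 1) (l 82 1))) (n 86 (n 85 (n 84 (l 83 1) (l 84 0)) (l 85 1)) (n 88 (n 87 (l 86 0) (l 87 1)) (l 88 0))))) (n 95 (n 94 (n 92 (n 91 (n 90 (l 89 (-1)) (l 90 0)) (l 91 1)) (n 93 (l 92 1) (l 93 2))) (l 94 2))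 (l 95 3)))

def ts : Fin 12 → Tr := ![t0, t1, t2, t3, t4, t5, t6, t7, t8, t9, t10, t11]

theorem chk : (∀ i, wf (ts i) = true) ∧ ∀ c < 96, (∀ i, (ev c (ts i)).2.2 = c) ∧
    ∑ i, (ev c (ts i)).2.1 = 0 ∧ ∑ i, (ev c (ts i)).1 ≤ 7153920 := by decide +kernel

theorem upper (h : ℝ) (hh : h ∈ Icc (0 : ℝ) 1) :
    ∑ i, (12⁻¹ : ℝ≥0∞) * cost (str (ts i)) h ≤ ENNReal.ofReal 0.621 := by
  obtain ⟨c, c0, h1, h2, h3⟩ : ∃ c : ℕ, c < 96 ∧ c / 96 ≤ h ∧ h ≤ (c + 1) / 96 ∧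
      ∀ g : ℕ, g < 96 → (h < g / 96 ↔ c < g) := by
    rcases hh.2.eq_or_lt with rfl | hlt
    · refine ⟨95, by norm_num, by norm_num, by norm_num, fun g hg => ⟨fun e => ?_, by omega⟩⟩
      have : (g : ℝ) < 96 := by exact_mod_cast hg
      linarith
    · have h0 : 0 ≤ 96 * h := by linarith [hh.1]
      refine ⟨⌊96 * h⌋₊, (Nat.floor_lt h0).mpr (by push_cast; linarith),
        by linarith [Nat.floor_le h0], by linarith [Nat.lt_floor_add_one (96 * h)], fun g _ => ?_⟩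
      rw [Nat.floor_lt h0, lt_div_iff₀ (by norm_num), mul_comm]
  obtain ⟨k1, k2, k3⟩ := chk.2 c c0
  have b := fun i => tree c h h1 h2 h3 (ts i) (chk.1 i) (k1 i)
  rw [← Finset.mul_sum]
  refine (mul_le_mul_right (Finset.sum_le_sum fun i _ => cost_le _ h _ (b i)) _).trans ?_
  rw [← ENNReal.ofReal_sum_of_nonneg fun i _ => le_trans (le_of_eq (by rw [F])) (b i 0),
    Finset.sum_add_distrib, ← Finset.sum_mul, ← Finset.sum_div, ← Int.cast_sum, ← Int.cast_sum, k2,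
    show (12⁻¹ : ℝ≥0∞) = ENNReal.ofReal 12⁻¹ by
      rw [ENNReal.ofReal_inv_of_pos (by norm_num)]; norm_num,
    ← ENNReal.ofReal_mul (by norm_num)]
  refine ENNReal.ofReal_le_ofReal ?_
  have : ((∑ i, (ev c (ts i)).1 : ℤ) : ℝ) ≤ 7153920 := by exact_mod_cast k3
  rw [Int.cast_zero]
  linarith

/-- A finitely supported mixed strategy whose guaranteed cost is below the constant payoff of
Alpern's strategy. -/
theorem result : ∃ (M : ℕ) (τ : Fin M → List Bool → ℝ) (p : Fin M → ℝ≥0∞),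
    (∀ i s, τ i s ∈ Icc (0 : ℝ) 1) ∧ ∑ i, p i = 1 ∧
    ∀ (l : ℤ → ℝ) (v : ℝ≥0∞), (∀ h ∈ Icc (0 : ℝ) 1, h ∉ range (alp l 0 1 0) → cost (alp l 0 1 0) h = v) →
      ⨆ h ∈ Icc (0 : ℝ) 1, ∑ i, p i * cost (τ i) h < v := by
  refine ⟨12, fun i => str (ts i), fun _ => 12⁻¹, fun i => str_mem _ (chk.1 i), ?_, fun l v hv => ?_⟩
  · simp [ENNReal.mul_inv_cancel]
  · obtain ⟨h, h1, h2, h3⟩ := lower _ (countable_range (alp l 0 1 0)) 7 0 (alp l 0 1 0) 0 1 0.621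
      one_pos (by
        have : (621 / 1000 : ℚ) < w 7 0 := by decide +kernel
        have : ((621 / 1000 : ℚ) : ℝ) < w 7 0 := by exact_mod_cast this
        norm_num at this ⊢
        exact this)
    refine (iSup₂_le upper).trans_lt ?_
    rw [← hv h (Ioo_subset_Icc_self h1) h2]
    refine lt_of_lt_of_le ?_ (le_cost _ h h2 7)
    rw [ENNReal.ofReal_lt_ofReal_iff_of_nonneg (by norm_num)]
    simpa using h3

end Pool.Agent.Results.MP_a09a4b_an.MixedBeats
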